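import Mathlib

universe u

namespace Pool.Agent.Results.MP_d29ee2_al.Universal

/-- A divisible (two-sided) ordered group together with an order-embedding of `G` into it. -/
structure DivExt (G : Type u) [Group G] [LinearOrder G] where
  carrier : Type u
  [grp : Group carrier]
  [ord : LinearOrder carrier]
  le_left : ∀ a b c : carrier, a ≤ b → c * a ≤ c * b
  le_right : ∀ a b c : carrier, a ≤ b → a * c ≤ b * c
  div : ∀ (d : carrier) (n : ℕ), 1 ≤ n → ∃ x : carrier, x ^ n = d
  emb : G →* carrier
  emb_inj : Function.Injective emb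
  emb_mono : ∀ a b : G, a ≤ b → emb a ≤ emb b

attribute [instance] DivExt.grp DivExt.ord

/-- The isolator of a subgroup: the smallest root-closed subgroup containing it. -/
def isolator {T : Type u} [Group T] (S : Subgroup T) : Subgroup T :=
  sInf {J : Subgroup T | S ≤ J ∧ ∀ (g : T) (n : ℕ), 0 < n → g ^ n ∈ J → g ∈ J}

/-- A minimal divisible completion: the isolator of (the image of) `G` is everything. -/
def DivExt.IsMinimal {G : Type u} [Group G] [LinearOrder G] (H : DivExt G) : Prop :=
  isolator H.emb.range = ⊤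

/-- Formal terms with roots. -/
inductive Tm (G : Type u) : Type u
  | of : G → Tm G
  | mul : Tm G → Tm G → Tm G
  | inv : Tm G → Tm G
  | root : ℕ → Tm G → Tm G

variable {G : Type u} [Group G] [LinearOrder G]

/-- Evaluation of terms. -/
noncomputable def ev (H : DivExt G) : Tm G → H.carrier
  | .of g => H.emb g
  | .mul s t => ev H s * ev H t
  | .inv s => (ev H s)⁻¹
  | .root n s => (H.div (ev H s) (n + 1) (by omega)).choose

theorem ev_root (H : DivExt G) (n : ℕ) (s : Tm G) : ev H (.root n s) ^ (n + 1) = ev H s :=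
  (H.div (ev H s) (n + 1) (by omega)).choose_spec

theorem lt_left (H : DivExt G) {a b : H.carrier} (c : H.carrier) (h : a < b) : c * a < c * b :=
  lt_of_le_of_ne (H.le_left a b c h.le) fun e => h.ne (mul_left_cancel e)

theorem lt_right (H : DivExt G) {a b : H.carrier} (c : H.carrier) (h : a < b) : a * c < b * c :=
  lt_of_le_of_ne (H.le_right a b c h.le) fun e => h.ne (mul_right_cancel e)

theorem pow_lt (H : DivExt G) {a b : H.carrier} (h : a < b) (n : ℕ) : a ^ (n + 1) < b ^ (n + 1) := by
  induction n with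
  | zero => simpa using h
  | succ n ih =>
    rw [pow_succ a, pow_succ b]
    exact (lt_right H a ih).trans (lt_left H _ h)

theorem root_unique (H : DivExt G) {a b : H.carrier} {n : ℕ} (h : a ^ (n + 1) = b ^ (n + 1)) :
    a = b := by
  rcases lt_trichotomy a b with h1 | h1 | h1
  · exact absurd h (pow_lt H h1 n).ne
  · exact h1
  · exact absurd h.symm (pow_lt H h1 n).ne

/-- The range of evaluation. -/
def evRange (H : DivExt G) : Subgroup H.carrier where
  carrier := Set.range (ev H)
  one_mem' := ⟨.of 1, by simp [ev]⟩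
  mul_mem' := by
    rintro _ _ ⟨s, rfl⟩ ⟨t, rfl⟩
    exact ⟨.mul s t, rfl⟩
  inv_mem' := by
    rintro _ ⟨s, rfl⟩
    exact ⟨.inv s, rfl⟩

theorem ev_surj (H : DivExt G) (h : H.IsMinimal) : Function.Surjective (ev H) := by
  intro x
  have hx : x ∈ isolator H.emb.range := by rw [h]; exact Subgroup.mem_top x
  have : isolator H.emb.range ≤ evRange H := by
    refine sInf_le ⟨?_, ?_⟩
    · rintro _ ⟨g, rfl⟩
      exact ⟨.of g, rfl⟩
    · rintro g n hn ⟨s, hs⟩
      obtain ⟨m, rfl⟩ : ∃ m, n = m + 1 := ⟨n - 1, by omega⟩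
      exact ⟨.root m s, root_unique H (by rw [ev_root, hs])⟩
  exact this hx

/-- The small index set: kernels of evaluation maps. -/
def Idx (G : Type u) [Group G] [LinearOrder G] : Type u :=
  {r : Tm G → Tm G → Prop // ∃ H : DivExt G, r = fun s t => ev H s = ev H t}

noncomputable instance : LinearOrder (Idx G) :=
  @linearOrderOfSTO _ WellOrderingRel _ (Classical.decRel _)

instance : WellFoundedLT (Idx G) := ⟨(WellOrderingRel.isWellOrder (α := Idx G)).wf⟩

/-- Chosen representative. -/
noncomputable def rep (i : Idx G) : DivExt G := i.2.choose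

theorem rep_spec (i : Idx G) : i.1 = fun s t => ev (rep i) s = ev (rep i) t := i.2.choose_spec

/-- The lexicographic product. -/
abbrev P (G : Type u) [Group G] [LinearOrder G] : Type u := Lex (∀ i : Idx G, (rep i).carrier)

/-- Evaluation in the product. -/
noncomputable def evP (t : Tm G) : P G := toLex fun i => ev (rep i) t

/-- The universal completion as a subgroup of the product. -/
def K (G : Type u) [Group G] [LinearOrder G] : Subgroup (P G) where
  carrier := Set.range evP
  one_mem' := ⟨.of 1, by funext i; exact map_one (rep i).emb⟩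
  mul_mem' := by
    rintro _ _ ⟨s, rfl⟩ ⟨t, rfl⟩
    exact ⟨.mul s t, rfl⟩
  inv_mem' := by
    rintro _ ⟨s, rfl⟩
    exact ⟨.inv s, rfl⟩

theorem P_left (a b c : P G) (h : a ≤ b) : c * a ≤ c * b := by
  rcases h.lt_or_eq with h | h
  · obtain ⟨i, h1, h2⟩ := h
    exact le_of_lt ⟨i, fun j hj => congrArg (fun x => ofLex c j * x) (h1 j hj), lt_left _ _ h2⟩
  · rw [h]

theorem P_right (a b c : P G) (h : a ≤ b) : a * c ≤ b * c := by
  rcases h.lt_or_eq with h | h
  · obtain ⟨i, h1, h2⟩ := h
    exact le_of_lt ⟨i, fun j hj => congrArg (fun x => x * ofLex c j) (h1 j hj), lt_right _ _ h2⟩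
  · rw [h]

theorem evP_root (n : ℕ) (s : Tm G) : evP (.root n s) ^ (n + 1) = evP s := by
  funext i
  exact ev_root (rep i) n s

/-- The embedding of `G`. -/
noncomputable def embK : G →* K G where
  toFun g := ⟨evP (.of g), ⟨_, rfl⟩⟩
  map_one' := Subtype.ext (by funext i; exact map_one (rep i).emb)
  map_mul' a b := Subtype.ext (by funext i; exact map_mul (rep i).emb a b)

/-- The universal completion. -/
noncomputable def univ (D : DivExt G) : DivExt G where
  carrier := K G
  le_left a b c h := P_left a.1 b.1 c.1 h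
  le_right a b c h := P_right a.1 b.1 c.1 h
  div := by
    rintro ⟨_, s, rfl⟩ n hn
    obtain ⟨m, rfl⟩ : ∃ m, n = m + 1 := ⟨n - 1, by omega⟩
    exact ⟨⟨evP (.root m s), _, rfl⟩, Subtype.ext (evP_root m s)⟩
  emb := embK
  emb_inj := fun a b h => by
    have h1 := congrFun (congrArg Subtype.val h) ⟨_, D, rfl⟩
    exact (rep _).emb_inj h1
  emb_mono := fun a b h => by
    change evP (.of a) ≤ evP (.of b)
    exact Pi.toLex_monotone fun i => (rep i).emb_mono a b h

/-- Every ordered group that embeds in a divisible ordered group has a minimal divisible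
completion mapping onto every minimal divisible completion over `G`. -/
theorem result (G : Type u) [Group G] [LinearOrder G]
    (_hl : ∀ a b c : G, a ≤ b → c * a ≤ c * b) (_hr : ∀ a b c : G, a ≤ b → a * c ≤ b * c)
    (hD : Nonempty (DivExt G)) :
    ∃ K : DivExt G, K.IsMinimal ∧ ∀ H : DivExt G, H.IsMinimal →
      ∃ φ : K.carrier →* H.carrier, Function.Surjective φ ∧ ∀ g : G, φ (K.emb g) = H.emb g := by
  obtain ⟨D⟩ := hD
  refine ⟨univ D, ?_, fun H hH => ?_⟩
  · rw [DivExt.IsMinimal, eq_top_iff]
    rintro ⟨_, s, rfl⟩ -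
    rw [isolator, Subgroup.mem_sInf]
    rintro J ⟨h1, h2⟩
    induction s with
    | of g => exact h1 ⟨g, rfl⟩
    | mul s t hs ht => exact J.mul_mem hs ht
    | inv s hs => exact J.inv_mem hs
    | root n s hs =>
      refine h2 _ (n + 1) (by omega) ?_
      have : ((⟨evP (.root n s), _, rfl⟩ : K G) ^ (n + 1)) = ⟨evP s, _, rfl⟩ :=
        Subtype.ext (evP_root n s)
      exact this ▸ hs
  · have key : ∀ s t : Tm G, evP s = evP t → ev H s = ev H t := fun s t h => by
      have h1 := congrFun h ⟨_, H, rfl⟩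
      have h2 := congrFun (congrFun (rep_spec (G := G) ⟨_, H, rfl⟩) s) t
      exact h2.mpr h1
    let f : K G → H.carrier := fun k => ev H k.2.choose
    have hf : ∀ s : Tm G, f ⟨evP s, s, rfl⟩ = ev H s := fun s =>
      key _ _ (Exists.choose_spec (⟨s, rfl⟩ : ∃ t, evP t = evP s))
    refine ⟨MonoidHom.mk' f ?_, fun x => ?_, fun g => hf (.of g)⟩
    · rintro ⟨_, s, rfl⟩ ⟨_, t, rfl⟩
      rw [hf s, hf t]
      exact hf (.mul s t)
    · obtain ⟨s, rfl⟩ := ev_surj H hH x
      exact ⟨_, hf s⟩

end Pool.Agent.Results.MP_d29ee2_al.Universal
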